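import Pool.Agent.N652.FM.Main

set_option autoImplicit false

/-!
# Metric laws for the numbers `n ^ n + 1`

The library `Pool.Agent.N652.FM` (helper652) is used for the exponents `2 ^ (j + 2 ^ j)`.
-/

namespace Pool.Agent.N656.NN

open Finset Filter Topology MeasureTheory
open Pool.Agent.TH888.R (wt wt_nonneg wt_le_one ff01 ae_windows near_base)
open Pool.Agent.W66X (ysh measurable_ysh trans_shift ae_of_exp')
open Pool.Agent.H447R2.ML (Sh Loc sh_of ff_eq_floor fam_of)
open Pool.Agent.H305R2 (roughPart ff)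
open Pool.Agent.N652.FM

/-- the index of the Fermat number `n ^ n + 1`, `n = 2 ^ (2 ^ j)` -/
def idx (j : ℕ) : ℕ := j + 2 ^ j

lemma idx_succ (j : ℕ) : idx j + 1 ≤ idx (j + 1) := by
  unfold idx
  have : 2 ^ j ≤ 2 ^ (j + 1) := Nat.pow_le_pow_right (by norm_num) (by omega)
  omega

lemma idx_pos (j : ℕ) : 1 ≤ idx j := by
  unfold idx
  have := Nat.one_le_two_pow (n := j)
  omega

lemma idx_mono : StrictMono idx := strictMono_nat_of_lt_succ fun j => by
  have := idx_succ j
  omega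

/-- the exponents -/
def q (k j : ℕ) : ℕ := 2 ^ (idx j + k)

lemma q_pos (k j : ℕ) : 1 ≤ q k j := Nat.one_le_two_pow

lemma q_double (k j : ℕ) : 2 * q k j ≤ q k (j + 1) := by
  unfold q
  calc 2 * 2 ^ (idx j + k) = 2 ^ (idx j + k + 1) := by rw [pow_succ]; ring
    _ ≤ 2 ^ (idx (j + 1) + k) := Nat.pow_le_pow_right (by norm_num) (by
        have := idx_succ j
        omega)

lemma vv_anti (k : ℕ) : Antitone (vv k) := antitone_nat_of_succ_le fun m => by
  have h1 := vv_sub k m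
  have h2 := wt_nonneg (2 ^ (m + k))
  linarith

lemma sum_le (k J n : ℕ) : ∑ i ∈ range n, wt (q k (J + i)) ≤ vv k (idx J) - vv k (idx (J + n)) := by
  induction n with
  | zero => simp
  | succ n ih =>
    rw [sum_range_succ]
    have h1 := vv_sub k (idx (J + n))
    have h2 := vv_anti k (idx_succ (J + n))
    unfold q at ih ⊢
    rw [show J + (n + 1) = J + n + 1 by ring]
    linarith

lemma summ (k J : ℕ) : Summable fun i => wt (q k (J + i)) := by
  refine summable_of_sum_range_le (c := vv k (idx J)) (fun i => wt_nonneg _) fun n => ?_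
  have h1 := sum_le k J n
  have h2 := (vv_pos k (idx (J + n))).le
  linarith

/-- the sum of the weights from `J` on -/
noncomputable def v (k J : ℕ) : ℝ := ∑' i, wt (q k (J + i))

lemma v_le (k J : ℕ) : v k J ≤ vv k (idx J) := by
  refine (summ k J).tsum_le_of_sum_range_le fun n => ?_
  have h1 := sum_le k J n
  have h2 := (vv_pos k (idx (J + n))).le
  linarith

lemma v_sub (k J : ℕ) : v k J - v k (J + 1) = wt (q k J) := by
  unfold v
  rw [(summ k J).tsum_eq_zero_add]
  have e : ∀ i, J + 1 + i = J + (i + 1) := fun i => by ring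
  simp only [e, Nat.add_zero]
  ring

lemma wt_pos (k J : ℕ) : 0 < wt (q k J) := by
  unfold wt q
  have h1 : 1 < 2 ^ (idx J + k) := Nat.one_lt_two_pow (by have := idx_pos J; omega)
  have h2 : (1 : ℝ) < ((2 ^ (idx J + k) : ℕ) : ℝ) := by exact_mod_cast h1
  exact div_pos (Real.log_pos h2) (by linarith)

lemma v_pos (k J : ℕ) : 0 < v k J := by
  have h1 := v_sub k J
  have h2 : 0 ≤ v k (J + 1) := tsum_nonneg fun i => wt_nonneg _
  have h3 := wt_pos k J
  linarith

lemma v_lim (k : ℕ) : Tendsto (v k) atTop (𝓝 0) :=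
  squeeze_zero (fun J => (v_pos k J).le) (v_le k) ((vv_lim k).comp idx_mono.tendsto_atTop)

lemma wt_eq (k J : ℕ) : wt (q k J) = Real.log 2 * (idx J + k) / 2 ^ (idx J + k) := by
  unfold wt q
  push_cast
  rw [Real.log_pow]
  push_cast
  ring

lemma ratio_le (k J : ℕ) : v k (J + 1) / wt (q k J) ≤ 4 / 2 ^ (2 ^ J) := by
  rw [div_le_iff₀ (wt_pos k J)]
  refine (v_le k (J + 1)).trans ?_
  rw [wt_eq]
  unfold vv
  have hl := Real.log_pos (show (1 : ℝ) < 2 by norm_num)
  have e : idx (J + 1) + k = (idx J + k) + (1 + 2 ^ J) := by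
    unfold idx
    rw [pow_succ]
    ring
  have h1 : ((idx (J + 1) : ℕ) : ℝ) + k + 1 ≤ 4 * (idx J + k) := by
    have : idx (J + 1) + k + 1 ≤ 4 * (idx J + k) := by
      have h2 := idx_pos J
      unfold idx at h2 ⊢
      have h3 := Nat.lt_two_pow_self (n := J)
      rw [pow_succ]
      omega
    exact_mod_cast this
  have h2 : (2 : ℝ) ^ (idx (J + 1) + k) = 2 ^ (idx J + k) * (2 * 2 ^ (2 ^ J)) := by
    rw [e, pow_add (2 : ℝ) (idx J + k), pow_add (2 : ℝ) 1, pow_one]
  rw [h2]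
  have hA : (0 : ℝ) < 2 ^ (idx J + k) := by positivity
  have hB : (0 : ℝ) < 2 ^ (2 ^ J) := by positivity
  rw [div_le_iff₀ (by positivity)]
  have e3 : 4 / (2 : ℝ) ^ (2 ^ J) * (Real.log 2 * (↑(idx J) + ↑k) / 2 ^ (idx J + k)) *
      (2 ^ (idx J + k) * (2 * 2 ^ (2 ^ J))) = 8 * (Real.log 2 * (idx J + k)) := by
    field_simp
    ring
  rw [e3]
  nlinarith

lemma ratio_lim (k : ℕ) : Tendsto (fun J => v k J / wt (q k J)) atTop (𝓝 1) := by
  have h1 : Tendsto (fun J : ℕ => (4 : ℝ) / 2 ^ (2 ^ J)) atTop (𝓝 0) := by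
    have h2 : Tendsto (fun J : ℕ => (2 : ℝ) ^ (2 ^ J)) atTop atTop :=
      (tendsto_pow_atTop_atTop_of_one_lt (by norm_num : (1 : ℝ) < 2)).comp
        (tendsto_pow_atTop_atTop_of_one_lt (by norm_num : 1 < 2))
    exact h2.const_div_atTop 4
  have h2 : Tendsto (fun J => v k (J + 1) / wt (q k J)) atTop (𝓝 0) :=
    squeeze_zero (fun J => div_nonneg (v_pos k (J + 1)).le (wt_pos k J).le) (ratio_le k) h1
  have h3 := h2.const_add 1
  rw [add_zero] at h3
  refine h3.congr fun J => ?_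
  have h4 := v_sub k J
  have h5 := wt_pos k J
  rw [eq_div_iff h5.ne', add_mul, div_mul_cancel₀ _ h5.ne']
  linarith

variable {b : ℝ}

/-- the late events and the rough parts -/
lemma late_ae (hb : 1 < b) (k : ℕ) (s t : ℝ) (M : ℕ) :
    {u : ℝ | u ∈ Set.Ioc s t ∧ ∃ j, M ≤ j ∧ (WF b k (Real.exp u) (idx j)).Prime} =ᵐ[volume]
      late (ysh (al b k) g1) (q k) s t M := by
  filter_upwards [ae_generic (one_lt_al (k := k) hb)] with u hu
  refine propext ?_
  show (u ∈ Set.Ioc s t ∧ ∃ j, M ≤ j ∧ (WF b k (Real.exp u) (idx j)).Prime) ↔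
    (u ∈ Set.Ioc s t ∧ ∃ j, M ≤ j ∧ ff (q k j) (ysh (al b k) g1 (q k j) u) = 1)
  refine and_congr_right fun _ => exists_congr fun j => and_congr_right fun _ => ?_
  rw [ff_iff (one_lt_al hb) hu]
  unfold q
  rw [al_pow hb]
  rfl

/-- **The measure of the amplitudes with a late prime.** -/
theorem amp_measure (hb : 1 < b) (k : ℕ) {s t : ℝ} (hst : s < t) :
    Tendsto (fun J : ℕ => volume.real
      {u : ℝ | u ∈ Set.Ioc s t ∧ ∃ j, J ≤ j ∧ (WF b k (Real.exp u) (idx j)).Prime} *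
        (2 ^ idx J / (idx J + k))) atTop
      (𝓝 (Real.exp Real.eulerMascheroniConstant * (Real.log 2 / Real.log b) * (t - s))) := by
  have hα := one_lt_al (k := k) hb
  have ha : 0 < Real.log (al b k) := Real.log_pos hα
  have key := tail_measure ha (measurable_ysh (al b k) g1) (fam1 hα) (q := q k)
    (q_pos k) (q_double k) (v := v k) (v_sub k) (v_lim k) (v_pos k) hst
  have h1 := (key.mul (ratio_lim k)).mul_const (Real.log 2 / 2 ^ k)
  have hlb : 0 < Real.log b := Real.log_pos hb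
  have e : Real.exp Real.eulerMascheroniConstant * (t - s) / Real.log (al b k) * 1 *
      (Real.log 2 / 2 ^ k) =
      Real.exp Real.eulerMascheroniConstant * (Real.log 2 / Real.log b) * (t - s) := by
    rw [log_al hb]
    field_simp
  rw [e] at h1
  refine h1.congr fun J => ?_
  have h2 : volume.real {u : ℝ | u ∈ Set.Ioc s t ∧ ∃ j, J ≤ j ∧
      (WF b k (Real.exp u) (idx j)).Prime} = volume.real (late (ysh (al b k) g1) (q k) s t J) :=
    measureReal_congr (late_ae hb k s t J)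
  rw [h2]
  have hv := v_pos k J
  have hw := wt_pos k J
  have h3 : (Real.log 2 / 2 ^ k) / wt (q k J) = 2 ^ idx J / (idx J + k) := by
    have hl2 := Real.log_pos (show (1 : ℝ) < 2 by norm_num)
    have hi : (0 : ℝ) < idx J := by exact_mod_cast idx_pos J
    have hk : (0 : ℝ) ≤ k := Nat.cast_nonneg k
    have hs : (0 : ℝ) < idx J + k := by linarith
    rw [wt_eq, pow_add]
    field_simp
  rw [← h3]
  field_simp

/-- a limit superior of sets with measures tending to zero -/
lemma null_of_tail {Q : ℝ → ℕ → Prop} {k : ℕ} {s t c : ℝ}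
    (h : Tendsto (fun J : ℕ => volume.real {u : ℝ | u ∈ Set.Ioc s t ∧ ∃ j, J ≤ j ∧ Q u j} *
        (2 ^ idx J / (idx J + k))) atTop (𝓝 c)) :
    ∀ᵐ u : ℝ, u ∈ Set.Ioc s t → {j : ℕ | Q u j}.Finite := by
  rw [ae_iff]
  set B : ℕ → Set ℝ := fun J => {u : ℝ | u ∈ Set.Ioc s t ∧ ∃ j, J ≤ j ∧ Q u j} with hB
  have hsub : ∀ M, {u : ℝ | ¬ (u ∈ Set.Ioc s t → {m : ℕ | Q u m}.Finite)} ⊆ B M := by
    intro M u hu
    simp only [Set.mem_ofPred_eq, Classical.not_imp] at hu
    refine ⟨hu.1, ?_⟩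
    have hinf : {m : ℕ | Q u m}.Infinite := hu.2
    obtain ⟨m, hm1, hm2⟩ := hinf.exists_gt M
    exact ⟨m, hm2.le, hm1⟩
  have hfin : ∀ M, volume (B M) ≠ ⊤ := fun M =>
    ne_top_of_le_ne_top (by simp [Real.volume_Ioc])
      (measure_mono (fun x hx => hx.1) : _ ≤ volume (Set.Ioc s t))
  have hlim : Tendsto (fun M : ℕ => volume.real (B M)) atTop (𝓝 0) := by
    have h2 : Tendsto (fun J : ℕ => ((idx J : ℝ) + k) / 2 ^ idx J) atTop (𝓝 0) := by
      have h3 : Tendsto (fun J => wt (q k J)) atTop (𝓝 0) :=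
        squeeze_zero (fun J => wt_nonneg _) (fun J => by
          have h4 := v_sub k J
          have h5 := (v_pos k (J + 1)).le
          linarith : ∀ J, wt (q k J) ≤ v k J) (v_lim k)
      have h4 := h3.const_mul (2 ^ k / Real.log 2)
      rw [mul_zero] at h4
      refine h4.congr fun J => ?_
      have hl2 := Real.log_pos (show (1 : ℝ) < 2 by norm_num)
      rw [wt_eq, pow_add]
      field_simp
    have h3 := h.mul h2
    rw [mul_zero] at h3
    refine h3.congr fun J => ?_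
    have hi : (0 : ℝ) < idx J := by exact_mod_cast idx_pos J
    have hk : (0 : ℝ) ≤ k := Nat.cast_nonneg k
    have hs : (0 : ℝ) < idx J + k := by linarith
    show volume.real (B J) * (2 ^ idx J / (idx J + k)) * (((idx J : ℝ) + k) / 2 ^ idx J) =
      volume.real (B J)
    field_simp
  have hle : ∀ M : ℕ, volume.real {u : ℝ | ¬ (u ∈ Set.Ioc s t → {m : ℕ | Q u m}.Finite)} ≤
      volume.real (B M) := fun M => measureReal_mono (hsub M) (hfin M)
  have h0 := ge_of_tendsto' hlim hle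
  have h1 : volume.real {u : ℝ | ¬ (u ∈ Set.Ioc s t → {m : ℕ | Q u m}.Finite)} = 0 :=
    le_antisymm h0 measureReal_nonneg
  exact (measureReal_eq_zero_iff (ne_top_of_le_ne_top (hfin 0) (measure_mono (hsub 0)))).1 h1

/-- **Almost every amplitude has finitely many primes.** -/
theorem amp_finite (hb : 1 < b) (k : ℕ) :
    ∀ᵐ β : ℝ, 0 < β → {j : ℕ | (WF b k β (idx j)).Prime}.Finite := by
  refine ae_of_exp' (P := fun β : ℝ => {j : ℕ | (WF b k β (idx j)).Prime}.Finite)
    (ae_windows fun b0 => ?_)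
  rw [ae_restrict_iff' measurableSet_Ioc]
  exact null_of_tail (Q := fun u j => (WF b k (Real.exp u) (idx j)).Prime)
    (amp_measure hb k (s := b0) (t := b0 + 1) (by linarith))

/-- **The measure of the bases with a late prime.** -/
theorem base_measure (k : ℕ) {s t : ℝ} (hs : 0 < s) (hst : s < t) :
    Tendsto (fun J : ℕ => volume.real
      {u : ℝ | u ∈ Set.Ioc s t ∧ ∃ j, J ≤ j ∧ (WF (Real.exp u) k 1 (idx j)).Prime} *
        (2 ^ idx J / (idx J + k))) atTop
      (𝓝 (Real.exp Real.eulerMascheroniConstant * Real.log 2 * (Real.log t - Real.log s))) := by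
  have h2k : (0 : ℝ) < 2 ^ k := by positivity
  have key := tail_base measurable_yb fam_yb (q := q k)
    (q_pos k) (q_double k) (v := v k) (v_sub k) (v_lim k) (v_pos k) (s := s / 2 ^ k)
      (t := t / 2 ^ k) (by positivity) (by gcongr)
  have e : Real.log (t / 2 ^ k) - Real.log (s / 2 ^ k) = Real.log t - Real.log s := by
    rw [Real.log_div (by linarith) h2k.ne', Real.log_div hs.ne' h2k.ne']
    ring
  rw [e] at key
  have h1 := (key.mul (ratio_lim k)).mul_const (Real.log 2)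
  have e2 : Real.exp Real.eulerMascheroniConstant * (Real.log t - Real.log s) * 1 * Real.log 2 =
      Real.exp Real.eulerMascheroniConstant * Real.log 2 * (Real.log t - Real.log s) := by ring
  rw [e2] at h1
  refine h1.congr fun J => ?_
  set B : Set ℝ := {u : ℝ | u ∈ Set.Ioc s t ∧ ∃ j, J ≤ j ∧ (WF (Real.exp u) k 1 (idx j)).Prime}
    with hB
  have h2 : volume ((fun x : ℝ => 2 ^ k * x) ⁻¹' B) = ENNReal.ofReal |((2 : ℝ) ^ k)⁻¹| * volume B :=
    Real.volume_preimage_mul_left h2k.ne' B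
  have h3 : ((fun x : ℝ => 2 ^ k * x) ⁻¹' B : Set ℝ) =ᵐ[volume]
      late yb (q k) (s / 2 ^ k) (t / 2 ^ k) J := by
    filter_upwards [ae_generic_base] with u hu
    refine propext ?_
    show (2 ^ k * u ∈ Set.Ioc s t ∧ ∃ j, J ≤ j ∧ (WF (Real.exp (2 ^ k * u)) k 1 (idx j)).Prime) ↔
      (u ∈ Set.Ioc (s / 2 ^ k) (t / 2 ^ k) ∧ ∃ j, J ≤ j ∧ ff (q k j) (yb (q k j) u) = 1)
    have hmem : 2 ^ k * u ∈ Set.Ioc s t ↔ u ∈ Set.Ioc (s / 2 ^ k) (t / 2 ^ k) := by
      rw [Set.mem_Ioc, Set.mem_Ioc, div_lt_iff₀ h2k, le_div_iff₀ h2k, mul_comm u]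
    rw [hmem]
    refine and_congr_right fun h => exists_congr fun j => and_congr_right fun _ => ?_
    have hu0 : 0 < u := lt_trans (by positivity) h.1
    rw [ff_iff_base (hu hu0) (q_pos k j)]
    unfold WF q
    have h5 : (1 : ℝ) * Real.exp (2 ^ k * u) ^ 2 ^ idx j =
        Real.exp (((2 ^ (idx j + k) : ℕ) : ℝ) * u) := by
      rw [one_mul, ← Real.exp_nat_mul]
      congr 1
      push_cast
      rw [pow_add]
      ring
    rw [h5]
  have h4 : volume.real (late yb (q k) (s / 2 ^ k) (t / 2 ^ k) J) =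
      ((2 : ℝ) ^ k)⁻¹ * volume.real B := by
    rw [← measureReal_congr h3, measureReal_def, h2, ENNReal.toReal_mul,
      ENNReal.toReal_ofReal (abs_nonneg _), abs_of_pos (by positivity)]
    rfl
  rw [h4]
  have hl2 := Real.log_pos (show (1 : ℝ) < 2 by norm_num)
  have hv := v_pos k J
  have hw := wt_pos k J
  have hi : (0 : ℝ) < idx J := by exact_mod_cast idx_pos J
  have hk : (0 : ℝ) ≤ k := Nat.cast_nonneg k
  have hs' : (0 : ℝ) < idx J + k := by linarith
  have h6 : ((2 : ℝ) ^ k)⁻¹ * volume.real B / v k J * (v k J / wt (q k J)) * Real.log 2 =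
      ((2 : ℝ) ^ k)⁻¹ * volume.real B * (Real.log 2 / wt (q k J)) := by
    field_simp
  rw [h6, wt_eq, pow_add]
  field_simp

/-- **Almost every base has finitely many primes.** -/
theorem base_finite (k : ℕ) : ∀ᵐ b : ℝ, 1 < b → {j : ℕ | (WF b k 1 (idx j)).Prime}.Finite := by
  filter_upwards [Pool.Agent.N652.FM.base_finite k] with b hb h1
  refine ((hb h1).preimage (f := idx) idx_mono.injective.injOn).subset ?_
  intro j hj
  exact hj

/-- the numbers `n ^ n + 1` -/
theorem WF_tower {j : ℕ} (hj : 1 ≤ j) :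
    WF 2 2 1 (idx j) = (2 ^ 2 ^ j) ^ (2 ^ 2 ^ j) + 1 := by
  have h2 : 2 ≤ idx j := by
    unfold idx
    have := Nat.lt_two_pow_self (n := j)
    omega
  rw [Pool.Agent.N652.FM.WF_fermat h2]
  unfold Nat.fermatNumber idx
  rw [← pow_mul, pow_add]

/-- the primes `n ^ n + 1` -/
theorem tower_of_prime {n : ℕ} (hn : 2 ≤ n) (hp : (n ^ n + 1).Prime) :
    ∃ j : ℕ, n = 2 ^ 2 ^ j := by
  obtain ⟨m, hm⟩ := Nat.pow_of_pow_add_prime (by omega) (by omega) hp
  have hm0 : m ≠ 0 := by
    rintro rfl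
    rw [pow_zero] at hm
    omega
  have e : n ^ n = 2 ^ (m * n) := by
    conv_lhs => rw [hm]
    rw [← pow_mul]
    congr 1
    rw [← hm]
  rw [e] at hp
  obtain ⟨r, hr⟩ := Nat.pow_of_pow_add_prime (by norm_num)
    (Nat.mul_ne_zero hm0 (by omega)) hp
  have hd : m ∣ 2 ^ r := by
    rw [← hr]
    exact Dvd.intro _ rfl
  obtain ⟨j, _, hj⟩ := (Nat.dvd_prime_pow Nat.prime_two).1 hd
  exact ⟨j, by rw [hm, hj]⟩

end Pool.Agent.N656.NN
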